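import Pool.Agent.Results.MP_bed60c_co.EveryJoinPartner

/-!
# The hyperopic cop number of a join can exceed `m(G) + m(J)`

For every `g ≥ 2` there is a finite connected graph `G` with `c_H(G) ≤ g < Υ(G)` and
`c_H(G ∨ G) ≥ 2 g + 1`.
-/

set_option autoImplicit false

namespace Pool.Agent.Results.MP_689627_co.JoinExceedsSum

open Finset
open Pool.Agent.Results.MP_bed60c_co.EveryJoinPartner (join commonNbrs upsilon obs hist pos
  RobberLegal Winning hyperopicCopNumber lt_hyperopic winning_all)

/-- `m(X) = min (c_H(X), Υ(X))`. -/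
noncomputable def mm {X : Type} (H : SimpleGraph X) : ℕ := min (hyperopicCopNumber H) (upsilon H)

section evade

variable {X : Type} (H : SimpleGraph X)

/-- If from every vertex, whatever the positions of the `m` cops, more than `m` vertices adjacent
to all cops can be reached in one step, then `m` cops do not win. -/
theorem not_winning_of_hide [Nonempty X] {m : ℕ}
    (h : ∀ (c : Fin m → X) (u : X), ∃ F : Finset X, m < F.card ∧
      ∀ v ∈ F, H.Adj u v ∧ ∀ i, H.Adj (c i) v)
    (σ : List (Option X) → Fin m → X) : ¬ Winning H σ := by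
  classical
  intro hw
  have answer : ∀ (l : List (Option X)) (c : Fin m → X) (u : X), ∃ v : X, H.Adj u v ∧
      (∀ i, c i ≠ v) ∧ ∀ i, σ (obs H c v :: l) i ≠ v := by
    intro l c u
    obtain ⟨F, hF, hadj⟩ := h c u
    have hobs : ∀ v ∈ F, obs H c v = none := fun v hv => if_pos (hadj v hv).2
    obtain ⟨v, hv, hv'⟩ : ∃ v ∈ F, v ∉ univ.image (σ (none :: l)) := by
      by_contra hcon
      push Not at hcon
      have h1 := card_le_card (show F ⊆ univ.image (σ (none :: l)) from fun v hv => hcon v hv)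
      have h2 : (univ.image (σ (none :: l))).card ≤ m := by
        refine card_image_le.trans ?_
        rw [card_univ, Fintype.card_fin]
      omega
    refine ⟨v, (hadj v hv).1, fun i hi => ?_, fun i hi => ?_⟩
    · have h1 := (hadj v hv).2 i
      rw [hi] at h1
      exact H.loopless.irrefl _ h1
    · rw [hobs v hv] at hi
      exact hv' (mem_image.2 ⟨i, mem_univ _, hi⟩)
  choose nxt hn1 hn2 hn3 using answer
  obtain ⟨q0⟩ := ‹Nonempty X›
  let st : ℕ → List (Option X) × X := fun n => Nat.rec
    ([obs H (σ []) (nxt [] (σ []) q0)], nxt [] (σ []) q0)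
    (fun _ s => (obs H (σ s.1) (nxt (obs H (σ s.1) s.2 :: s.1) (σ s.1) s.2) ::
      obs H (σ s.1) s.2 :: s.1, nxt (obs H (σ s.1) s.2 :: s.1) (σ s.1) s.2)) n
  let r : ℕ → X := fun n => (st n).2
  have hhist : ∀ n, hist H σ r n = (st n).1 := by
    intro n
    induction n with
    | zero => rfl
    | succ n ih =>
      rw [hist, ih]
  have hleg : RobberLegal H r := fun n => Or.inr (hn1 _ (σ (st n).1) (st n).2)
  obtain ⟨-, n, i, hni⟩ := hw r hleg
  rcases hni with hni | hni
  · rcases n with _ | n
    · exact hn2 [] (σ []) q0 i hni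
    · rw [pos, hhist] at hni
      exact hn2 _ (σ (st n).1) (st n).2 i hni
  · rcases n with _ | n
    · exact hn3 [] (σ []) q0 i hni
    · rw [pos, hhist] at hni
      exact hn3 _ (σ (st n).1) (st n).2 i hni

end evade

/-- every set of at most `g` vertices has more than `2 g` common neighbours -/
def Rich {V : Type} (G : SimpleGraph V) (g : ℕ) : Prop :=
  ∀ T : Finset V, T.card ≤ g → ∃ F : Finset V, 2 * g < F.card ∧ ∀ v ∈ F, ∀ t ∈ T, G.Adj t v

theorem hide_join {V W : Type} {G : SimpleGraph V} {J : SimpleGraph W} {g : ℕ}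
    (hG : Rich G g) (hJ : Rich J g) {m : ℕ} (hm : m ≤ 2 * g) (c : Fin m → V ⊕ W) (u : V ⊕ W) :
    ∃ F : Finset (V ⊕ W), m < F.card ∧ ∀ v ∈ F, (join G J).Adj u v ∧ ∀ i, (join G J).Adj (c i) v := by
  classical
  -- the cops on both sides
  set IG : Finset (Fin m) := univ.filter fun i => (c i).isLeft = true with hIG
  set IJ : Finset (Fin m) := univ.filter fun i => (c i).isRight = true with hIJ
  have hsum : IG.card + IJ.card ≤ m := by
    rw [← card_union_of_disjoint]
    · refine (card_le_univ _).trans ?_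
      rw [Fintype.card_fin]
    · rw [Finset.disjoint_left]
      intro i h1 h2
      rw [hIG, mem_filter] at h1
      rw [hIJ, mem_filter] at h2
      rcases hc : c i with a | a
      · rw [hc] at h2; simp at h2
      · rw [hc] at h1; simp at h1
  -- the positions of the cops on the two sides
  obtain ⟨TG, hTG1, hTG2⟩ : ∃ T : Finset V, T.card ≤ IG.card ∧ ∀ i a, c i = Sum.inl a → a ∈ T := by
    have h0 : ∀ i : IG, ∃ a, c i = Sum.inl a := fun ⟨i, hi⟩ => by
      rw [hIG, mem_filter] at hi
      exact Sum.isLeft_iff.1 hi.2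
    choose f hf using h0
    refine ⟨IG.attach.image f, card_image_le.trans (by rw [card_attach]), fun i a hi => ?_⟩
    have hi' : i ∈ IG := by
      rw [hIG, mem_filter, hi]
      exact ⟨mem_univ _, rfl⟩
    refine mem_image.2 ⟨⟨i, hi'⟩, mem_attach _ _, ?_⟩
    have := hf ⟨i, hi'⟩
    rw [hi] at this
    exact (Sum.inl_injective this).symm
  obtain ⟨TJ, hTJ1, hTJ2⟩ : ∃ T : Finset W, T.card ≤ IJ.card ∧ ∀ i a, c i = Sum.inr a → a ∈ T := by
    have h0 : ∀ i : IJ, ∃ a, c i = Sum.inr a := fun ⟨i, hi⟩ => by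
      rw [hIJ, mem_filter] at hi
      exact Sum.isRight_iff.1 hi.2
    choose f hf using h0
    refine ⟨IJ.attach.image f, card_image_le.trans (by rw [card_attach]), fun i a hi => ?_⟩
    have hi' : i ∈ IJ := by
      rw [hIJ, mem_filter, hi]
      exact ⟨mem_univ _, rfl⟩
    refine mem_image.2 ⟨⟨i, hi'⟩, mem_attach _ _, ?_⟩
    have := hf ⟨i, hi'⟩
    rw [hi] at this
    exact (Sum.inr_injective this).symm
  rcases u with u | u
  · by_cases hJc : IJ.card ≤ g
    · obtain ⟨F, hF, hadj⟩ := hJ TJ (hTJ1.trans hJc)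
      refine ⟨F.map ⟨Sum.inr, Sum.inr_injective⟩, by rw [card_map]; omega, fun v hv => ?_⟩
      obtain ⟨w, hw, rfl⟩ := mem_map.1 hv
      refine ⟨trivial, fun i => ?_⟩
      rcases hc : c i with a | a
      · trivial
      · exact hadj w hw a (hTJ2 i a hc)
    · obtain ⟨F, hF, hadj⟩ := hG (insert u TG) (by
        have := card_insert_le u TG
        omega)
      refine ⟨F.map ⟨Sum.inl, Sum.inl_injective⟩, by rw [card_map]; omega, fun v hv => ?_⟩
      obtain ⟨w, hw, rfl⟩ := mem_map.1 hv
      refine ⟨hadj w hw u (mem_insert_self _ _), fun i => ?_⟩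
      rcases hc : c i with a | a
      · exact hadj w hw a (mem_insert_of_mem (hTG2 i a hc))
      · trivial
  · by_cases hGc : IG.card ≤ g
    · obtain ⟨F, hF, hadj⟩ := hG TG (hTG1.trans hGc)
      refine ⟨F.map ⟨Sum.inl, Sum.inl_injective⟩, by rw [card_map]; omega, fun v hv => ?_⟩
      obtain ⟨w, hw, rfl⟩ := mem_map.1 hv
      refine ⟨trivial, fun i => ?_⟩
      rcases hc : c i with a | a
      · exact hadj w hw a (hTG2 i a hc)
      · trivial
    · obtain ⟨F, hF, hadj⟩ := hJ (insert u TJ) (by
        have := card_insert_le u TJ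
        omega)
      refine ⟨F.map ⟨Sum.inr, Sum.inr_injective⟩, by rw [card_map]; omega, fun v hv => ?_⟩
      obtain ⟨w, hw, rfl⟩ := mem_map.1 hv
      refine ⟨hadj w hw u (mem_insert_self _ _), fun i => ?_⟩
      rcases hc : c i with a | a
      · trivial
      · exact hadj w hw a (mem_insert_of_mem (hTJ2 i a hc))

theorem join_bound {V W : Type} [Fintype V] [Fintype W] [Nonempty V] {G : SimpleGraph V}
    {J : SimpleGraph W} {g : ℕ} (hG : Rich G g) (hJ : Rich J g) :
    2 * g + 1 ≤ hyperopicCopNumber (join G J) :=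
  lt_hyperopic _ (2 * g) fun m hm σ => not_winning_of_hide _ (hide_join hG hJ hm) σ

section graph

variable (g : ℕ)

/-- colours: the special vertices not adjacent to a vertex, at most one in each of the two
groups, not none in both -/
abbrev Color (g : ℕ) : Type := {c : Option (Fin g) × Option (Fin g) // c ≠ (none, none)}

/-- the ordinary vertices: part, colour, index -/
abbrev Ord (g : ℕ) : Type := Fin (g + 1) × Color g × Fin (2 * g + 1)

/-- The graph: special vertices `s_i`, `s'_i`, where `s_i` is adjacent to `s'_i`; ordinary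
vertices are adjacent to the special ones other than those named by their colour, and to each
other if they lie in different parts, unless one is adjacent to all the `s_i` and the other to
all the `s'_i`. -/
def GG : SimpleGraph ((Fin g ⊕ Fin g) ⊕ Ord g) where
  Adj x y :=
    match x, y with
    | Sum.inl (Sum.inl i), Sum.inl (Sum.inr j) => i = j
    | Sum.inl (Sum.inr i), Sum.inl (Sum.inl j) => i = j
    | Sum.inl (Sum.inl _), Sum.inl (Sum.inl _) => False
    | Sum.inl (Sum.inr _), Sum.inl (Sum.inr _) => False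
    | Sum.inl (Sum.inl i), Sum.inr b => b.2.1.1.1 ≠ some i
    | Sum.inl (Sum.inr i), Sum.inr b => b.2.1.1.2 ≠ some i
    | Sum.inr b, Sum.inl (Sum.inl i) => b.2.1.1.1 ≠ some i
    | Sum.inr b, Sum.inl (Sum.inr i) => b.2.1.1.2 ≠ some i
    | Sum.inr a, Sum.inr b => a.1 ≠ b.1 ∧ ¬ (a.2.1.1.1 = none ∧ b.2.1.1.2 = none) ∧
        ¬ (b.2.1.1.1 = none ∧ a.2.1.1.2 = none)
  symm := by
    constructor
    rintro ((a | a) | a) ((b | b) | b) h
    · exact h
    · exact Eq.symm h
    · exact h
    · exact Eq.symm h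
    · exact h
    · exact h
    · exact h
    · exact h
    · exact ⟨Ne.symm h.1, h.2.2, h.2.1⟩
  loopless := by
    constructor
    rintro ((a | a) | a) h
    · exact h
    · exact h
    · exact h.1 rfl

variable {g}

/-- the neutral vertices -/
def neut (p : Fin (g + 1)) (i j : Fin g) (t : Fin (2 * g + 1)) : (Fin g ⊕ Fin g) ⊕ Ord g :=
  Sum.inr (p, ⟨(some i, some j), by simp⟩, t)

theorem GG_rich (hg : 2 ≤ g) : Rich (GG g) g := by
  classical
  intro T hT
  have z : Fin g := ⟨0, by omega⟩
  have key : ∀ (v : Fin (2 * g + 1) → (Fin g ⊕ Fin g) ⊕ Ord g), Function.Injective v →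
      (∀ t, ∀ x ∈ T, (GG g).Adj x (v t)) →
      ∃ F : Finset ((Fin g ⊕ Fin g) ⊕ Ord g), 2 * g < F.card ∧ ∀ v ∈ F, ∀ t ∈ T,
        (GG g).Adj t v := by
    intro v hv hadj
    refine ⟨univ.image v, ?_, ?_⟩
    · rw [card_image_of_injective _ hv, card_univ, Fintype.card_fin]
      omega
    · intro w hw t ht
      obtain ⟨s, -, rfl⟩ := mem_image.1 hw
      exact hadj s t ht
  -- a set with at most `g` elements which contains `g` elements of a given form
  have full : ∀ f : Fin g → (Fin g ⊕ Fin g) ⊕ Ord g, Function.Injective f → (∀ i, f i ∈ T) →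
      ∀ x ∈ T, ∃ i, x = f i := by
    intro f hf hfT x hx
    by_contra hcon
    push Not at hcon
    have h1 : insert x (univ.image f) ⊆ T := by
      intro y hy
      rcases mem_insert.1 hy with rfl | hy
      · exact hx
      · obtain ⟨i, -, rfl⟩ := mem_image.1 hy
        exact hfT i
    have h2 := card_le_card h1
    rw [card_insert_of_notMem (by
      intro hmem
      obtain ⟨i, -, hi⟩ := mem_image.1 hmem
      exact hcon i hi.symm), card_image_of_injective _ hf, card_univ, Fintype.card_fin] at h2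
    omega
  by_cases h1 : ∀ i, (Sum.inl (Sum.inl i) : (Fin g ⊕ Fin g) ⊕ Ord g) ∈ T
  · refine key (fun t => Sum.inr (0, ⟨(none, some z), by simp⟩, t)) (fun t t' h => by
      simpa using h) (fun t x hx => ?_)
    obtain ⟨i, rfl⟩ := full _ (fun a b h => by simpa using h) h1 x hx
    exact Option.some_ne_none i |>.symm
  by_cases h2 : ∀ i, (Sum.inl (Sum.inr i) : (Fin g ⊕ Fin g) ⊕ Ord g) ∈ T
  · refine key (fun t => Sum.inr (0, ⟨(some z, none), by simp⟩, t)) (fun t t' h => by
      simpa using h) (fun t x hx => ?_)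
    obtain ⟨i, rfl⟩ := full _ (fun a b h => by simpa using h) h2 x hx
    exact Option.some_ne_none i |>.symm
  push Not at h1 h2
  obtain ⟨i, hi⟩ := h1
  obtain ⟨j, hj⟩ := h2
  -- a part which is not met
  obtain ⟨p, hp⟩ : ∃ p : Fin (g + 1), ∀ q : Ord g, Sum.inr q ∈ T → q.1 ≠ p := by
    let f : (Fin g ⊕ Fin g) ⊕ Ord g → Option (Fin (g + 1)) := fun x =>
      Sum.elim (fun _ => none) (fun q => some q.1) x
    by_contra hcon
    push Not at hcon
    have h3 : univ.image (some : Fin (g + 1) → Option (Fin (g + 1))) ⊆ T.image f := by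
      intro y hy
      obtain ⟨p, -, rfl⟩ := mem_image.1 hy
      obtain ⟨q, hq, hqp⟩ := hcon p
      refine mem_image.2 ⟨_, hq, ?_⟩
      change some q.1 = some p
      rw [hqp]
    have h4 := (card_le_card h3).trans card_image_le
    rw [card_image_of_injective _ (Option.some_injective _), card_univ, Fintype.card_fin] at h4
    omega
  refine key (fun t => neut p i j t) (fun t t' h => by simpa [neut] using h) (fun t x hx => ?_)
  rcases x with (a | a) | q
  · change some i ≠ some a
    rintro h
    rw [Option.some.inj h] at hi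
    exact hi hx
  · change some j ≠ some a
    rintro h
    rw [Option.some.inj h] at hj
    exact hj hx
  · exact ⟨hp q hx, fun h => by simp at h, fun h => by simp at h⟩

theorem GG_connected (hg : 2 ≤ g) : (GG g).Connected := by
  have z : Fin g := ⟨0, by omega⟩
  have : Nonempty ((Fin g ⊕ Fin g) ⊕ Ord g) := ⟨Sum.inl (Sum.inl z)⟩
  refine ⟨fun x y => ?_⟩
  classical
  obtain ⟨F, hF, hadj⟩ := GG_rich hg {x, y} ((card_le_two).trans hg)
  obtain ⟨v, hv⟩ := card_pos.1 (by omega : 0 < F.card)
  have h1 := hadj v hv x (by simp)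
  have h2 := hadj v hv y (by simp)
  exact h1.reachable.trans h2.symm.reachable

/-- cops next to the visible robber move onto him -/
noncomputable def chase {X : Type} (H : SimpleGraph X) {m : ℕ} (c : Fin m → X) :
    Option X → Fin m → X
  | none => c
  | some v => fun i => open Classical in if H.Adj (c i) v then v else c i

theorem chase_legal {X : Type} (H : SimpleGraph X) {m : ℕ} (c : Fin m → X) (o : Option X)
    (i : Fin m) : chase H c o i = c i ∨ H.Adj (c i) (chase H c o i) := by
  rcases o with _ | v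
  · exact Or.inl rfl
  · by_cases h : H.Adj (c i) v
    · right
      have : chase H c (some v) i = v := if_pos h
      rw [this]
      exact h
    · left
      exact if_neg h

/-- the strategy of the `g` cops -/
noncomputable def strat (g : ℕ) : List (Option ((Fin g ⊕ Fin g) ⊕ Ord g)) →
    Fin g → (Fin g ⊕ Fin g) ⊕ Ord g
  | [] => fun i => Sum.inl (Sum.inl i)
  | [none] => fun i => Sum.inl (Sum.inr i)
  | [some v] => chase (GG g) (fun i => Sum.inl (Sum.inl i)) (some v)
  | a :: _ :: l => chase (GG g) (strat g l) a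

theorem dominated (hg : 2 ≤ g) (x : (Fin g ⊕ Fin g) ⊕ Ord g) :
    (∃ i, (Sum.inl (Sum.inl i) : (Fin g ⊕ Fin g) ⊕ Ord g) = x) ∨
      ∃ i, (GG g).Adj (Sum.inl (Sum.inl i)) x := by
  have : Nontrivial (Fin g) := Fin.nontrivial_iff_two_le.2 hg
  rcases x with (a | a) | ⟨p, ⟨⟨c1, c2⟩, hc⟩, t⟩
  · exact Or.inl ⟨a, rfl⟩
  · exact Or.inr ⟨a, rfl⟩
  · right
    rcases c1 with _ | b
    · exact ⟨⟨0, by omega⟩, (Option.some_ne_none _).symm⟩
    · obtain ⟨i, hi⟩ := exists_ne b
      exact ⟨i, fun h => hi (Option.some.inj h).symm⟩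

theorem dominated' (hg : 2 ≤ g) (x : (Fin g ⊕ Fin g) ⊕ Ord g) :
    (∃ i, (Sum.inl (Sum.inr i) : (Fin g ⊕ Fin g) ⊕ Ord g) = x) ∨
      ∃ i, (GG g).Adj (Sum.inl (Sum.inr i)) x := by
  have : Nontrivial (Fin g) := Fin.nontrivial_iff_two_le.2 hg
  rcases x with (a | a) | ⟨p, ⟨⟨c1, c2⟩, hc⟩, t⟩
  · exact Or.inr ⟨a, rfl⟩
  · exact Or.inl ⟨a, rfl⟩
  · right
    rcases c2 with _ | b
    · exact ⟨⟨0, by omega⟩, (Option.some_ne_none _).symm⟩
    · obtain ⟨i, hi⟩ := exists_ne b
      exact ⟨i, fun h => hi (Option.some.inj h).symm⟩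

/-- a vertex adjacent to all `s_i` is ordinary, and its colour names no `s_i` -/
theorem adj_all (hg : 2 ≤ g) (x : (Fin g ⊕ Fin g) ⊕ Ord g)
    (h : ∀ i, (GG g).Adj (Sum.inl (Sum.inl i)) x) : ∃ q : Ord g, x = Sum.inr q ∧
      q.2.1.1.1 = none := by
  have : Nontrivial (Fin g) := Fin.nontrivial_iff_two_le.2 hg
  rcases x with (a | a) | q
  · exact absurd (h a) (fun h' => h')
  · obtain ⟨i, hi⟩ := exists_ne a
    exact absurd (h i) hi
  · refine ⟨q, rfl, ?_⟩
    rcases hq : q.2.1.1.1 with _ | b
    · rfl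
    · exact absurd hq (h b)

theorem adj_all' (hg : 2 ≤ g) (x : (Fin g ⊕ Fin g) ⊕ Ord g)
    (h : ∀ i, (GG g).Adj (Sum.inl (Sum.inr i)) x) : ∃ q : Ord g, x = Sum.inr q ∧
      q.2.1.1.2 = none := by
  have : Nontrivial (Fin g) := Fin.nontrivial_iff_two_le.2 hg
  rcases x with (a | a) | q
  · obtain ⟨i, hi⟩ := exists_ne a
    exact absurd (h i) hi
  · exact absurd (h a) (fun h' => h')
  · refine ⟨q, rfl, ?_⟩
    rcases hq : q.2.1.1.2 with _ | b
    · rfl
    · exact absurd hq (h b)

theorem chase_hit {X : Type} (H : SimpleGraph X) {m : ℕ} (c : Fin m → X) (v : X) (i : Fin m)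
    (h : H.Adj (c i) v) : chase H c (some v) i = v := if_pos h

theorem strat_wins (hg : 2 ≤ g) : Winning (GG g) (strat g) := by
  intro r hr
  constructor
  · intro n i
    rcases n with _ | n
    · change strat g [obs (GG g) (strat g []) (r 0)] i = strat g [] i ∨
        (GG g).Adj (strat g [] i) (strat g [obs (GG g) (strat g []) (r 0)] i)
      rcases obs (GG g) (strat g []) (r 0) with _ | v
      · right
        rw [strat, strat]
        exact rfl
      · rw [strat, strat]
        exact chase_legal _ _ _ _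
    · have e1 : pos (GG g) (strat g) r (n + 1 + 1) = chase (GG g)
          (strat g (hist (GG g) (strat g) r n))
          (obs (GG g) (strat g (hist (GG g) (strat g) r n)) (r (n + 1))) := by
        rw [pos, hist, strat]
      have e2 : pos (GG g) (strat g) r (n + 1) = strat g (hist (GG g) (strat g) r n) := rfl
      rw [e1, e2]
      exact chase_legal _ _ _ _
  · by_cases h0 : ∀ i, (GG g).Adj (strat g [] i) (r 0)
    · -- the robber is invisible at first
      have ho : obs (GG g) (strat g []) (r 0) = none := if_pos h0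
      have hp1 : pos (GG g) (strat g) r 1 = fun i => Sum.inl (Sum.inr i) := by
        rw [pos, hist, ho, strat]
      have h0' : ∀ i, (GG g).Adj (Sum.inl (Sum.inl i)) (r 0) := fun i => by
        have := h0 i
        rw [strat] at this
        exact this
      obtain ⟨q, hq, hqn⟩ := adj_all hg (r 0) h0'
      refine ⟨1, ?_⟩
      rcases dominated' hg (r 1) with ⟨j, hj⟩ | ⟨j, hj⟩
      · exact ⟨j, Or.inl (by rw [hp1]; exact hj)⟩
      · refine ⟨j, Or.inr ?_⟩
        have hvis : ¬ ∀ i, (GG g).Adj (strat g (hist (GG g) (strat g) r 0) i) (r 1) := by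
          intro hall
          have hall' : ∀ i, (GG g).Adj (Sum.inl (Sum.inr i)) (r 1) := fun i => by
            have := hall i
            rw [hist, ho, strat] at this
            exact this
          obtain ⟨q', hq', hqn'⟩ := adj_all' hg (r 1) hall'
          rcases hr 0 with h | h
          · rw [h, hq] at hq'
            have := Sum.inr_injective hq'
            subst this
            exact q.2.1.2 (Prod.ext hqn hqn')
          · rw [hq, hq'] at h
            exact h.2.1 ⟨hqn, hqn'⟩
        have ho1 : obs (GG g) (strat g (hist (GG g) (strat g) r 0)) (r 1) = some (r 1) :=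
          if_neg hvis
        rw [pos, hist, ho1, strat]
        refine chase_hit _ _ _ _ ?_
        rw [hist, ho, strat]
        exact hj
    · have ho : obs (GG g) (strat g []) (r 0) = some (r 0) := if_neg h0
      refine ⟨0, ?_⟩
      rcases dominated hg (r 0) with ⟨j, hj⟩ | ⟨j, hj⟩
      · refine ⟨j, Or.inl ?_⟩
        rw [pos, strat]
        exact hj
      · refine ⟨j, Or.inr ?_⟩
        rw [pos, hist, ho, strat]
        exact chase_hit _ _ _ _ hj

end graph

/-- **Q1 is false: for every `g ≥ 2` there is a finite connected graph `G` with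
`c_H(G) ≤ g < Υ(G)`, so that `m(G) ≤ g`, and `c_H(G ∨ G) ≥ 2 g + 1 > m(G) + m(G)`.** -/
theorem result (g : ℕ) (hg : 2 ≤ g) : ∃ (V : Type) (_ : Fintype V) (G : SimpleGraph V),
    G.Connected ∧ hyperopicCopNumber G ≤ g ∧ g + 1 ≤ upsilon G ∧
      2 * g + 1 ≤ hyperopicCopNumber (join G G) ∧
      mm G + mm G < hyperopicCopNumber (join G G) := by
  classical
  have z : Fin g := ⟨0, by omega⟩
  have : Nonempty ((Fin g ⊕ Fin g) ⊕ Ord g) := ⟨Sum.inl (Sum.inl z)⟩
  have h1 : hyperopicCopNumber (GG g) ≤ g := Nat.sInf_le ⟨strat g, strat_wins hg⟩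
  have h2 : 2 * g + 1 ≤ hyperopicCopNumber (join (GG g) (GG g)) :=
    join_bound (GG_rich hg) (GG_rich hg)
  refine ⟨_, inferInstance, GG g, GG_connected hg, h1, ?_, h2, ?_⟩
  · apply le_csInf
    · refine ⟨_, (univ : Finset ((Fin g ⊕ Fin g) ⊕ Ord g)), univ_nonempty, rfl, ?_⟩
      rw [← Set.ncard_coe_finset]
      exact Set.ncard_le_ncard (fun x _ => mem_univ x) (Set.toFinite _)
    · rintro n ⟨S, hS, rfl, hcard⟩
      by_contra hlt
      push Not at hlt
      obtain ⟨F, hF, hadj⟩ := GG_rich hg S (by omega)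
      have hsub : F ⊆ (Set.toFinite (commonNbrs (GG g) S)).toFinset := by
        intro v hv
        rw [Set.Finite.mem_toFinset]
        exact fun s hs => hadj v hv s hs
      have h3 := card_le_card hsub
      rw [← Set.ncard_eq_toFinset_card] at h3
      omega
  · have h3 : mm (GG g) ≤ g := (min_le_left _ _).trans h1
    omega

end Pool.Agent.Results.MP_689627_co.JoinExceedsSum
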